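import Mathlib

/-! Syndetic sets, minimal ultrafilters on the integers and colour focusing.  The first four
results are taken from the library module `R_pool_sql_team_39128cda/H/MP_31db24_co/A`. -/

set_option autoImplicit false

namespace Pool.Agent.Z26.PolyPat

open Filter Set

/-- syndetic subsets of the integers -/
def Syn (V : Set ℤ) : Prop := ∃ G : Finset ℤ, ∀ k : ℤ, ∃ g ∈ G, k + g ∈ V

/-- return set of an ultrafilter -/
def st (p : Ultrafilter ℤ) (A : Set ℤ) : Set ℤ := {a | {b | a + b ∈ A} ∈ p}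

def Inv (F : Filter ℤ) : Prop := ∀ A ∈ F, ∀ k : ℤ, {b | k + b ∈ A} ∈ F

theorem exists_max : ∃ F : Filter ℤ, F.NeBot ∧ F ≤ atTop ∧ Inv F ∧
    ∀ F' : Filter ℤ, F'.NeBot → F' ≤ F → Inv F' → F' = F := by
  let S : Set (Filter ℤ)ᵒᵈ := {F | (OrderDual.ofDual F).NeBot ∧ OrderDual.ofDual F ≤ atTop ∧
    Inv (OrderDual.ofDual F)}
  have h0 : OrderDual.toDual (atTop : Filter ℤ) ∈ S := by
    refine ⟨(inferInstance : (atTop : Filter ℤ).NeBot), le_rfl, ?_⟩
    intro A hA k
    change A ∈ (atTop : Filter ℤ) at hA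
    change _ ∈ (atTop : Filter ℤ)
    rw [mem_atTop_sets] at hA ⊢
    obtain ⟨a, ha⟩ := hA
    exact ⟨a - k, fun b hb => ha _ (by linarith)⟩
  obtain ⟨m, -, hm⟩ := zorn_le_nonempty₀ S (by
    intro c hc hch y hy
    let c' : Set (Filter ℤ) := OrderDual.ofDual '' c
    have hne : c'.Nonempty := ⟨_, y, hy, rfl⟩
    have hdir : DirectedOn (· ≥ ·) c' := by
      rintro _ ⟨a, ha, rfl⟩ _ ⟨b, hb, rfl⟩
      rcases hch.total ha hb with h | h
      · exact ⟨_, ⟨b, hb, rfl⟩, h, le_rfl⟩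
      · exact ⟨_, ⟨a, ha, rfl⟩, le_rfl, h⟩
    have hmem : ∀ A, A ∈ sInf c' ↔ ∃ F ∈ c', A ∈ F := by
      intro A
      rw [sInf_eq_iInf]
      exact mem_biInf_of_directed (f := fun F : Filter ℤ => F) hdir hne
    refine ⟨OrderDual.toDual (sInf c'), ⟨?_, ?_, ?_⟩, ?_⟩
    · change (sInf c').NeBot
      refine ⟨fun h => ?_⟩
      have : (∅ : Set ℤ) ∈ sInf c' := by rw [h]; exact mem_bot
      obtain ⟨_, ⟨a, ha, rfl⟩, hF⟩ := (hmem _).1 this
      exact (hc ha).1.ne (empty_mem_iff_bot.1 hF)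
    · change sInf c' ≤ atTop
      exact (sInf_le (show OrderDual.ofDual y ∈ c' from ⟨y, hy, rfl⟩)).trans (hc hy).2.1
    · intro A hA k
      change A ∈ sInf c' at hA
      change _ ∈ sInf c'
      obtain ⟨_, ⟨a, ha, rfl⟩, hF⟩ := (hmem _).1 hA
      exact (hmem _).2 ⟨_, ⟨a, ha, rfl⟩, (hc ha).2.2 A hF k⟩
    · intro z hz
      change sInf c' ≤ OrderDual.ofDual z
      exact sInf_le ⟨z, hz, rfl⟩) _ h0
  refine ⟨OrderDual.ofDual m, hm.1.1, hm.1.2.1, hm.1.2.2, ?_⟩
  intro F' h1 h2 h3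
  have : OrderDual.toDual F' ∈ S := ⟨h1, h2.trans hm.1.2.1, h3⟩
  have h4 : OrderDual.toDual F' ≤ m := hm.2 this h2
  exact le_antisymm h2 h4

theorem exists_ur : ∃ p : Ultrafilter ℤ, (p : Filter ℤ) ≤ atTop ∧
    ∀ A : Set ℤ, (st p A).Nonempty → Syn (st p A) := by
  classical
  obtain ⟨F, hne, hle, hinv, hmax⟩ := exists_max
  refine ⟨Ultrafilter.of F, (Ultrafilter.of_le F).trans hle, ?_⟩
  intro A ⟨a, ha⟩
  by_contra hs
  -- the filter generated by F and all shifts of the complement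
  let F' : Filter ℤ :=
    { sets := {B | ∃ G : Finset ℤ, ∃ D ∈ F, ∀ b ∈ D, (∀ g ∈ G, g + b ∉ A) → b ∈ B}
      univ_sets := ⟨∅, univ, univ_mem, fun _ _ _ => trivial⟩
      sets_of_superset := by
        rintro x y ⟨G, D, hD, h⟩ hxy
        exact ⟨G, D, hD, fun b hb hg => hxy (h b hb hg)⟩
      inter_sets := by
        rintro x y ⟨G, D, hD, h⟩ ⟨G', D', hD', h'⟩
        refine ⟨G ∪ G', D ∩ D', inter_mem hD hD', fun b hb hg => ⟨h b hb.1 ?_, h' b hb.2 ?_⟩⟩
        · exact fun g hg' => hg g (Finset.mem_union_left _ hg')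
        · exact fun g hg' => hg g (Finset.mem_union_right _ hg') }
  have hle' : F' ≤ F := fun B hB => ⟨∅, B, hB, fun b hb _ => hb⟩
  have hinv' : Inv F' := by
    rintro B ⟨G, D, hD, h⟩ k
    refine ⟨G.image (· + k), _, hinv D hD k, fun b hb hg => h _ hb fun g hg' => ?_⟩
    have := hg _ (Finset.mem_image_of_mem _ hg')
    rwa [add_assoc] at this
  have hne' : F'.NeBot := by
    refine ⟨fun h => hs ?_⟩
    have : (∅ : Set ℤ) ∈ F' := by rw [h]; exact mem_bot
    obtain ⟨G, D, hD, h⟩ := this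
    refine ⟨G, fun k => ?_⟩
    have h1 : {b | k + b ∈ D} ∈ Ultrafilter.of F := Ultrafilter.of_le F (hinv D hD k)
    have h2 : (⋃ g ∈ (G : Set ℤ), {b | k + g + b ∈ A}) ∈ Ultrafilter.of F := by
      refine mem_of_superset h1 fun b hb => ?_
      by_contra hc
      refine h _ hb fun g hg hA => hc ?_
      simp only [mem_iUnion]
      exact ⟨g, hg, by simpa [add_comm, add_left_comm] using hA⟩
    rw [Ultrafilter.finite_biUnion_mem_iff G.finite_toSet] at h2
    obtain ⟨g, hg, h3⟩ := h2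
    exact ⟨g, hg, h3⟩
  have he := hmax F' hne' hle' hinv'
  have h1 : {b | a + b ∉ A} ∈ F' := ⟨{a}, univ, univ_mem, fun b _ hg => hg a (by simp)⟩
  rw [he] at h1
  have h2 : {b | a + b ∉ A} ∈ Ultrafilter.of F := Ultrafilter.of_le F h1
  have h3 : {b | a + b ∈ A} ∈ Ultrafilter.of F := ha
  obtain ⟨b, hb1, hb2⟩ := Ultrafilter.nonempty_of_mem (inter_mem h2 h3)
  exact hb1 hb2

/-- an algebra of sets whose nonempty members are syndetic -/
structure Alg (O : Set ℤ → Prop) : Prop where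
  univ : O univ
  inter : ∀ V W, O V → O W → O (V ∩ W)
  shift : ∀ V k, O V → O {x | x + k ∈ V}
  syn : ∀ V, O V → V.Nonempty → Syn V

theorem Alg.fin {O : Set ℤ → Prop} (h : Alg O) {α : Type*} (s : Finset α) (W : α → Set ℤ)
    (hW : ∀ a ∈ s, O (W a)) : O {x | ∀ a ∈ s, x ∈ W a} := by
  classical
  induction s using Finset.induction_on with
  | empty => simpa using h.univ
  | insert a s _ ih =>
    have h1 := h.inter _ _ (hW a (by simp)) (ih fun b hb => hW b (by simp [hb]))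
    convert h1 using 1
    ext x; simp

theorem focus {O : Set ℤ → Prop} (h : Alg O) {γ ι : Type*} (C : Finset γ) (K : γ → Set ℤ)
    (hK : ∀ f, O (K f)) (hC : ∀ m, ∃ f ∈ C, m ∈ K f) (E : Finset ι) (P : ι → ℤ → ℤ)
    (hP : ∀ e ∈ E, P e 0 = 0) (R : ℤ → ℤ → Prop)
    (step : ∀ V, O V → V.Nonempty → ∀ N : Finset ℤ, ∃ n m : ℤ, (∀ ν ∈ N, R (ν + n) m) ∧
      ∀ ν ∈ N, ∀ e ∈ E, m + (P e (ν + n) - P e ν) ∈ V) :
    ∃ n m f, f ∈ C ∧ R n m ∧ m ∈ K f ∧ ∀ e ∈ E, m + P e n ∈ K f := by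
  classical
  by_contra hc
  have key : ∀ l : ℕ, ∃ S : Finset γ, S ⊆ C ∧ S.card = l ∧ ∃ off : γ → ℤ, ∃ V, O V ∧
      V.Nonempty ∧ ∀ f ∈ S, ∀ m ∈ V, ∀ e ∈ E, m + P e (off f) ∈ K f := by
    intro l
    induction l with
    | zero => exact ⟨∅, by simp, rfl, fun _ => 0, univ, h.univ, ⟨0, trivial⟩, by simp⟩
    | succ l ih =>
      obtain ⟨S, hS, hl, off, V, hV, hne, hoff⟩ := ih
      obtain ⟨n, m, h1, h2⟩ := step V hV hne (S.image off)
      obtain ⟨f', hf', hm⟩ := hC m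
      have hnot : f' ∉ S := by
        intro hf
        refine hc ⟨off f' + n, m, f', hf', h1 _ (Finset.mem_image_of_mem _ hf), hm, ?_⟩
        intro e he
        have := hoff f' hf _ (h2 _ (Finset.mem_image_of_mem _ hf) e he) e he
        convert this using 1
        ring
      refine ⟨insert f' S, Finset.insert_subset hf' hS, by rw [Finset.card_insert_of_notMem hnot, hl],
        fun f => if f = f' then 0 else off f + n,
        K f' ∩ {x | ∀ a ∈ (S.image off) ×ˢ E, x ∈ {x | x + (P a.2 (a.1 + n) - P a.2 a.1) ∈ V}},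
        h.inter _ _ (hK _) (h.fin _ _ fun a _ => h.shift _ _ hV), ⟨m, hm, ?_⟩, ?_⟩
      · intro a ha
        rw [Finset.mem_product] at ha
        exact h2 _ ha.1 _ ha.2
      · intro f hf x hx e he
        by_cases hff : f = f'
        · subst hff
          simpa [hP e he] using hx.1
        · have hfS : f ∈ S := by simpa [hff] using hf
          simp only [hff, if_false]
          have h3 := hx.2 (off f, e) (Finset.mem_product.2 ⟨Finset.mem_image_of_mem _ hfS, he⟩)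
          have := hoff f hfS _ h3 e he
          convert this using 1
          ring
  obtain ⟨S, hS, hl, -⟩ := key (C.card + 1)
  have := Finset.card_le_card hS
  omega

theorem alg_st (p : Ultrafilter ℤ) (hp : ∀ A : Set ℤ, (st p A).Nonempty → Syn (st p A)) :
    Alg (fun V => ∃ A, V = st p A) where
  univ := ⟨univ, (eq_univ_of_forall fun _ => (univ_mem : univ ∈ (p : Filter ℤ))).symm⟩
  inter := by
    rintro _ _ ⟨A, rfl⟩ ⟨B, rfl⟩
    refine ⟨A ∩ B, ?_⟩
    ext x
    exact ⟨fun h => inter_mem h.1 h.2, fun h =>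
      ⟨mem_of_superset h fun _ hb => hb.1, mem_of_superset h fun _ hb => hb.2⟩⟩
  shift := by
    rintro _ k ⟨A, rfl⟩
    refine ⟨{x | x + k ∈ A}, ?_⟩
    ext x
    simp only [st, mem_ofPred_eq, add_right_comm]
  syn := by
    rintro _ ⟨A, rfl⟩ h
    exact hp A h

end Pool.Agent.Z26.PolyPat
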