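import Pool.Agent.Z26.PolyPat.A

set_option autoImplicit false

/-! Polynomial exhaustion (PET induction) in the algebra of return sets. -/

namespace Pool.Agent.Z26.PolyPat

open Filter Set Polynomial

/-- integer-valued polynomial vanishing at `0` -/
def Good (q : ℚ[X]) : Prop := (∀ n : ℤ, ∃ k : ℤ, q.eval (n : ℚ) = k) ∧ q.eval 0 = 0

/-- the integer value -/
noncomputable def ev (q : ℚ[X]) (n : ℤ) : ℤ := ⌊q.eval (n : ℚ)⌋

theorem ev_cast {q : ℚ[X]} (h : ∀ n : ℤ, ∃ k : ℤ, q.eval (n : ℚ) = k) (n : ℤ) :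
    ((ev q n : ℤ) : ℚ) = q.eval (n : ℚ) := by
  obtain ⟨k, hk⟩ := h n
  unfold ev
  rw [hk, Int.floor_intCast]

theorem ev_zero {q : ℚ[X]} (h : Good q) : ev q 0 = 0 := by
  unfold ev
  have := h.2
  simp [this]

/-- the difference polynomial `x ↦ q (x + ν) - q ν` -/
noncomputable def dif (q : ℚ[X]) (ν : ℤ) : ℚ[X] := q.comp (X + C (ν : ℚ)) - C (q.eval (ν : ℚ))

theorem dif_eval (q : ℚ[X]) (ν : ℤ) (x : ℚ) :
    (dif q ν).eval x = q.eval (x + ν) - q.eval (ν : ℚ) := by
  simp [dif, eval_comp]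

theorem dif_good {q : ℚ[X]} (h : ∀ n : ℤ, ∃ k : ℤ, q.eval (n : ℚ) = k) (ν : ℤ) :
    Good (dif q ν) := by
  refine ⟨fun n => ?_, ?_⟩
  · obtain ⟨k, hk⟩ := h (n + ν)
    obtain ⟨l, hl⟩ := h ν
    refine ⟨k - l, ?_⟩
    rw [dif_eval, hl]
    push_cast at hk ⊢
    rw [hk]
  · rw [dif_eval]; simp

theorem ev_dif {q : ℚ[X]} (h : ∀ n : ℤ, ∃ k : ℤ, q.eval (n : ℚ) = k) (ν n : ℤ) :
    ev (dif q ν) n = ev q (ν + n) - ev q ν := by
  have h1 := ev_cast (dif_good h ν).1 n
  have h2 := ev_cast h (ν + n)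
  have h3 := ev_cast h ν
  rw [dif_eval] at h1
  have : ((ev (dif q ν) n : ℤ) : ℚ) = ((ev q (ν + n) - ev q ν : ℤ) : ℚ) := by
    push_cast at h1 h2 h3 ⊢
    rw [h1, h2, h3, add_comm]
  exact_mod_cast this

theorem natDegree_dif {q : ℚ[X]} (ν : ℤ) : (dif q ν).natDegree = q.natDegree := by
  unfold dif
  rw [natDegree_sub_C, natDegree_comp, natDegree_X_add_C, mul_one]

theorem lc_dif {q : ℚ[X]} (ν : ℤ) (h : 1 ≤ q.natDegree) :
    (dif q ν).leadingCoeff = q.leadingCoeff := by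
  unfold dif
  have h1 : (q.comp (X + C (ν : ℚ))).natDegree = q.natDegree := by
    rw [natDegree_comp, natDegree_X_add_C, mul_one]
  rw [leadingCoeff_sub_of_degree_lt, leadingCoeff_comp (by rw [natDegree_X_add_C]; norm_num),
    leadingCoeff_X_add_C, one_pow, mul_one]
  refine lt_of_le_of_lt degree_C_le ?_
  rw [← natDegree_pos_iff_degree_pos, h1]
  omega

/-- the number of leading coefficients of the polynomials of degree `d` in the family -/
noncomputable def N (Q : Finset ℚ[X]) (d : ℕ) : ℕ := by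
  classical
  exact ((Q.filter (fun q => q.natDegree = d)).image leadingCoeff).card

/-- the weight of a family -/
noncomputable def wt (Q : Finset ℚ[X]) : ℕ →₀ ℕ := by
  classical
  exact Finsupp.onFinset (Q.image natDegree) (N Q) (by
    intro d hd
    unfold N at hd
    rw [Finset.card_ne_zero, Finset.image_nonempty] at hd
    obtain ⟨q, hq⟩ := hd
    rw [Finset.mem_filter] at hq
    exact Finset.mem_image.2 ⟨q, hq.1, hq.2⟩)

theorem wt_apply (Q : Finset ℚ[X]) (d : ℕ) : wt Q d = N Q d := rfl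

theorem wfL : WellFounded (Finsupp.Lex (α := ℕ) (N := ℕ) (fun i j => i > j) (fun i j => i < j)) := by
  refine Finsupp.Lex.wellFounded' ?_ ?_ ?_
  · intro n; exact Nat.not_lt_zero n
  · exact wellFounded_lt
  · exact wellFounded_lt

/-- the next family in the exhaustion -/
noncomputable def nxt (Q : Finset ℚ[X]) (a : ℚ[X]) (S : Finset ℤ) : Finset ℚ[X] := by
  classical
  exact ((Q.erase a) ×ˢ S).image (fun z => dif (z.1 - a) z.2)

theorem mem_nxt {Q : Finset ℚ[X]} {a : ℚ[X]} {S : Finset ℤ} {r : ℚ[X]} :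
    r ∈ nxt Q a S ↔ ∃ e ∈ Q, e ≠ a ∧ ∃ ν ∈ S, dif (e - a) ν = r := by
  classical
  unfold nxt
  simp only [Finset.mem_image, Finset.mem_product, Finset.mem_erase, Prod.exists]
  constructor
  · rintro ⟨e, ν, ⟨⟨h1, h2⟩, h3⟩, h4⟩
    exact ⟨e, h2, h1, ν, h3, h4⟩
  · rintro ⟨e, h2, h1, ν, h3, h4⟩
    exact ⟨e, ν, ⟨⟨h1, h2⟩, h3⟩, h4⟩

theorem natDegree_pos_of {q : ℚ[X]} (h0 : q.eval 0 = 0) (hq : q ≠ 0) : 1 ≤ q.natDegree := by
  by_contra h
  have h1 : q.natDegree = 0 := by omega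
  rw [natDegree_eq_zero] at h1
  obtain ⟨x, rfl⟩ := h1
  rw [eval_C] at h0
  exact hq (by rw [h0, C_0])

theorem nxt_lt {Q : Finset ℚ[X]} (hQ : ∀ q ∈ Q, Good q) {a : ℚ[X]} (ha : a ∈ Q)
    (hmin : ∀ q ∈ Q, a.natDegree ≤ q.natDegree) {S : Finset ℤ} (hS : S.Nonempty) :
    Finsupp.Lex (α := ℕ) (N := ℕ) (fun i j => i > j) (fun i j => i < j) (wt (nxt Q a S))
      (wt Q) := by
  classical
  have hev : ∀ e ∈ Q, (e - a).eval 0 = 0 := by
    intro e he
    rw [eval_sub, (hQ e he).2, (hQ a ha).2, sub_zero]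
  have hpos : ∀ e ∈ Q, e ≠ a → 1 ≤ (e - a).natDegree := fun e he hea =>
    natDegree_pos_of (hev e he) (sub_ne_zero.2 hea)
  refine ⟨a.natDegree, fun j hj => ?_, ?_⟩
  · -- higher degrees: unchanged
    change a.natDegree < j at hj
    change N _ j = N _ j
    unfold N
    congr 1
    ext x
    simp only [Finset.mem_image, Finset.mem_filter, mem_nxt]
    constructor
    · rintro ⟨r, ⟨⟨e, he, hea, ν, hν, rfl⟩, h2⟩, rfl⟩
      rw [natDegree_dif] at h2
      have h3 : e.natDegree = j := by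
        rcases (hmin e he).eq_or_lt with h | h
        · have := natDegree_sub_le e a
          rw [← h, max_self] at this
          omega
        · rw [natDegree_sub_eq_left_of_natDegree_lt h] at h2
          exact h2
      refine ⟨e, ⟨he, h3⟩, ?_⟩
      rw [lc_dif ν (hpos e he hea), leadingCoeff_sub_of_degree_lt]
      exact degree_lt_degree (by omega)
    · rintro ⟨e, ⟨he, h2⟩, rfl⟩
      have hea : e ≠ a := by rintro rfl; omega
      obtain ⟨ν, hν⟩ := hS
      refine ⟨_, ⟨⟨e, he, hea, ν, hν, rfl⟩, ?_⟩, ?_⟩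
      · rw [natDegree_dif, natDegree_sub_eq_left_of_natDegree_lt (by omega)]
        exact h2
      · rw [lc_dif ν (hpos e he hea), leadingCoeff_sub_of_degree_lt]
        exact degree_lt_degree (by omega)
  · change N _ a.natDegree < N _ a.natDegree
    unfold N
    have h1 : ((nxt Q a S).filter (fun q => q.natDegree = a.natDegree)).image leadingCoeff ⊆
        (((Q.filter (fun q => q.natDegree = a.natDegree)).image leadingCoeff).erase
          a.leadingCoeff).image (fun x => x - a.leadingCoeff) := by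
      intro x hx
      simp only [Finset.mem_image, Finset.mem_filter, mem_nxt] at hx
      obtain ⟨r, ⟨⟨e, he, hea, ν, hν, rfl⟩, h2⟩, rfl⟩ := hx
      rw [natDegree_dif] at h2
      have h3 := hpos e he hea
      have h4 : e.natDegree = a.natDegree := by
        rcases (hmin e he).eq_or_lt with h | h
        · exact h.symm
        · rw [natDegree_sub_eq_left_of_natDegree_lt h] at h2
          omega
      have h5 : (e - a).leadingCoeff = e.leadingCoeff - a.leadingCoeff := by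
        unfold leadingCoeff
        rw [h2, h4, coeff_sub]
      rw [lc_dif ν h3, h5]
      refine Finset.mem_image.2 ⟨e.leadingCoeff, Finset.mem_erase.2 ⟨?_, ?_⟩, rfl⟩
      · intro h
        rw [h, sub_self, leadingCoeff_eq_zero] at h5
        rw [h5, natDegree_zero] at h3
        omega
      · exact Finset.mem_image.2 ⟨e, Finset.mem_filter.2 ⟨he, h4⟩, rfl⟩
    refine lt_of_le_of_lt (Finset.card_le_card h1) (lt_of_le_of_lt Finset.card_image_le ?_)
    refine Finset.card_erase_lt_of_mem ?_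
    exact Finset.mem_image.2 ⟨a, Finset.mem_filter.2 ⟨ha, rfl⟩, rfl⟩

theorem nxt_good {Q : Finset ℚ[X]} (hQ : ∀ q ∈ Q, Good q) {a : ℚ[X]} (ha : a ∈ Q)
    {S : Finset ℤ} : ∀ q ∈ nxt Q a S, Good q := by
  intro q hq
  rw [mem_nxt] at hq
  obtain ⟨e, he, -, ν, -, rfl⟩ := hq
  refine dif_good (fun n => ?_) ν
  obtain ⟨k, hk⟩ := (hQ e he).1 n
  obtain ⟨l, hl⟩ := (hQ a ha).1 n
  exact ⟨k - l, by rw [eval_sub, hk, hl]; push_cast; ring⟩

theorem ev_sub {e a : ℚ[X]} (he : ∀ n : ℤ, ∃ k : ℤ, e.eval (n : ℚ) = k)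
    (ha : ∀ n : ℤ, ∃ k : ℤ, a.eval (n : ℚ) = k) (n : ℤ) : ev (e - a) n = ev e n - ev a n := by
  obtain ⟨k, hk⟩ := he n
  obtain ⟨l, hl⟩ := ha n
  unfold ev
  rw [eval_sub, hk, hl, Int.floor_intCast, Int.floor_intCast, ← Int.cast_sub, Int.floor_intCast]

/-- the set of polynomial progressions inside a member of the algebra is syndetic in the plane,
with respect to shifts by finitely many functions of the first coordinate -/
theorem pet {O : Set ℤ → Prop} (h : Alg O) : ∀ (w : ℕ →₀ ℕ) (Q : Finset ℚ[X]), wt Q = w →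
    (∀ q ∈ Q, Good q) → ∀ V : Set ℤ, O V → V.Nonempty →
    ∃ D : Finset (ℤ × (ℤ → ℤ)), ∀ n μ : ℤ, ∃ d ∈ D, ∀ q ∈ Q,
      μ + d.2 n + ev q (n + d.1) ∈ V := by
  classical
  intro w
  induction w using wfL.induction with
  | _ w ih =>
  intro Q hw hQ V hV hne
  rcases Q.eq_empty_or_nonempty with rfl | hQne
  · exact ⟨{(0, 0)}, fun n μ => ⟨(0, 0), by simp, by simp⟩⟩
  obtain ⟨a, ha, hmin⟩ := Finset.exists_min_image Q natDegree hQne
  by_contra hc
  push Not at hc
  obtain ⟨G, hG⟩ := h.syn V hV hne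
  have hstep : ∀ W, O W → W.Nonempty → ∀ S : Finset ℤ, ∃ n m : ℤ,
      (∀ ν ∈ S, ∀ f ∈ G, ¬ (m + f ∈ V ∧ ∀ e ∈ Q.erase a,
        m + f + (ev e (ν + n) - ev a (ν + n)) ∈ V)) ∧
      ∀ ν ∈ S, ∀ e ∈ Q.erase a, m + ((ev e (ν + n) - ev a (ν + n)) - (ev e ν - ev a ν)) ∈ W := by
    intro W hW hWne S
    obtain ⟨D, hD⟩ := ih _ (hw ▸ nxt_lt hQ ha hmin (Finset.insert_nonempty 0 S))
      (nxt Q a (insert 0 S)) rfl (nxt_good hQ ha) W hW hWne
    obtain ⟨n, μ, hn⟩ := hc (((D ×ˢ S) ×ˢ G).image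
      fun z => (z.1.1.1 + z.1.2, fun x => z.1.1.2 x + z.2 - ev a (x + z.1.1.1 + z.1.2)))
    obtain ⟨d, hd, h1⟩ := hD n μ
    refine ⟨n + d.1, μ + d.2 n, ?_, ?_⟩
    · rintro ν hν f hf ⟨h2, h3⟩
      obtain ⟨e, he, h4⟩ := hn _ (Finset.mem_image_of_mem _
        (show ((d, ν), f) ∈ (D ×ˢ S) ×ˢ G by simp [hd, hν, hf]))
      apply h4
      by_cases hea : e = a
      · subst hea
        convert h2 using 1
        simp only [← add_assoc]
        ring
      · convert h3 e (Finset.mem_erase.2 ⟨hea, he⟩) using 1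
        have e1 : ν + (n + d.1) = n + d.1 + ν := by ring
        simp only [e1, ← add_assoc]
        ring
    · intro ν hν e he
      have hmem : dif (e - a) ν ∈ nxt Q a (insert 0 S) :=
        mem_nxt.2 ⟨e, Finset.mem_of_mem_erase he, Finset.ne_of_mem_erase he, ν,
          Finset.mem_insert_of_mem hν, rfl⟩
      have hi : ∀ n : ℤ, ∃ k : ℤ, (e - a).eval (n : ℚ) = k := fun n => by
        obtain ⟨k, hk⟩ := (hQ e (Finset.mem_of_mem_erase he)).1 n
        obtain ⟨l, hl⟩ := (hQ a ha).1 n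
        exact ⟨k - l, by rw [eval_sub, hk, hl]; push_cast; ring⟩
      have h5 := h1 _ hmem
      rw [ev_dif hi, ev_sub (hQ e (Finset.mem_of_mem_erase he)).1 (hQ a ha).1,
        ev_sub (hQ e (Finset.mem_of_mem_erase he)).1 (hQ a ha).1] at h5
      convert h5 using 1
  obtain ⟨n, m, f, hf, h1, h2, h3⟩ := focus h G (fun f => {x | x + f ∈ V})
    (fun f => h.shift _ _ hV) hG (Q.erase a)
    (fun e n => ev e n - ev a n) (by
      intro e he
      simp only [ev_zero (hQ e (Finset.mem_of_mem_erase he)), ev_zero (hQ a ha), sub_zero])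
    (fun n m => ∀ f ∈ G, ¬ (m + f ∈ V ∧ ∀ e ∈ Q.erase a, m + f + (ev e n - ev a n) ∈ V)) hstep
  refine h1 f hf ⟨h2, fun e he => ?_⟩
  have := h3 e he
  change _ ∈ V at this
  convert this using 1
  ring

/-- polynomial configurations inside one class meet every relation that is thick with respect to
shifts by functions of the first coordinate -/
theorem poly_meets {O : Set ℤ → Prop} (h : Alg O) {γ : Type*} (Cl : Finset γ) (K : γ → Set ℤ)
    (hK : ∀ f, O (K f)) (hC : ∀ m, ∃ f ∈ Cl, m ∈ K f) (Φ : Finset ℚ[X]) (hΦ : ∀ q ∈ Φ, Good q)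
    (T : ℤ → ℤ → Prop) (hT : ∀ D : Finset (ℤ × (ℤ → ℤ)), ∃ n m, ∀ d ∈ D, T (n + d.1) (m + d.2 n)) :
    ∃ n m f, T n m ∧ m ∈ K f ∧ ∀ q ∈ Φ, m + ev q n ∈ K f := by
  classical
  obtain ⟨n, m, f, -, h1, h2, h3⟩ := focus h Cl K hK hC Φ (fun q n => ev q n)
    (fun q hq => ev_zero (hΦ q hq)) T (by
      intro V hV hne S
      obtain ⟨D, hD⟩ := pet h _ ((Φ ×ˢ S).image fun z => dif z.1 z.2) rfl (by
        intro q hq
        obtain ⟨z, hz, rfl⟩ := Finset.mem_image.1 hq
        rw [Finset.mem_product] at hz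
        exact dif_good (hΦ _ hz.1).1 _) V hV hne
      obtain ⟨n, m, hnm⟩ := hT ((D ×ˢ S).image fun z => (z.1.1 + z.2, z.1.2))
      obtain ⟨d, hd, h1⟩ := hD n m
      refine ⟨n + d.1, m + d.2 n, fun ν hν => ?_, fun ν hν q hq => ?_⟩
      · have := hnm _ (Finset.mem_image_of_mem _
          (show (d, ν) ∈ D ×ˢ S by simp [hd, hν]))
        convert this using 1
        simp only
        ring
      · have := h1 _ (Finset.mem_image_of_mem _ (show (q, ν) ∈ Φ ×ˢ S by simp [hq, hν]))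
        rw [ev_dif (hΦ q hq).1] at this
        exact this)
  exact ⟨n, m, f, h1, h2, h3⟩

end Pool.Agent.Z26.PolyPat
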