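import Pool.Agent.Z26.PolyPat.B

set_option autoImplicit false

namespace Pool.Agent.Z26.PolyPat

open Filter Set Polynomial

theorem st_mono {p : Ultrafilter ℤ} {A B : Set ℤ} (h : A ⊆ B) : st p A ⊆ st p B :=
  fun _ ha => mem_of_superset ha fun _ hb => h hb

theorem st_gt {p : Ultrafilter ℤ} (hp : (p : Filter ℤ) ≤ atTop) {A : Set ℤ} (K : ℤ) :
    st p A ⊆ st p (A ∩ {x | K < x}) := fun a ha =>
  inter_mem ha (hp (mem_of_superset (Ioi_mem_atTop (K - a)) fun b hb => by
    simp only [mem_Ioi] at hb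
    change K < a + b
    linarith))

/-- either the pattern exists in `A` or the greedy construction gets stuck -/
theorem greedy {p : Ultrafilter ℤ} (hp : (p : Filter ℤ) ≤ atTop) {ι : Type*} (φ : ι → ℤ → ℤ)
    (A U : Set ℤ) (hU : (st p U).Nonempty) (hUA : U ⊆ A)
    (h : ∀ U1 ⊆ U, (st p U1).Nonempty →
      ∃ b ∈ U1, (st p (U1 ∩ {x | ∀ l, x + φ l b ∈ A})).Nonempty) :
    ∃ b : ℕ → ℤ, StrictMono b ∧ 0 < b 0 ∧ (∀ i, b i ∈ A) ∧
      ∀ l i j, i < j → b j + φ l (b i) ∈ A := by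
  choose! β hβ1 hβ2 using h
  let W : ℕ → Set ℤ := fun n => Nat.rec (U ∩ {x | 0 < x})
    (fun _ X => X ∩ {x | ∀ l, x + φ l (β X) ∈ A} ∩ {x | β X < x}) n
  have hW : ∀ n, W n ⊆ U ∧ (st p (W n)).Nonempty := by
    intro n
    induction n with
    | zero => exact ⟨inter_subset_left, hU.mono (st_gt hp 0)⟩
    | succ n ih =>
      exact ⟨fun x hx => ih.1 hx.1.1, (hβ2 _ ih.1 ih.2).mono (st_gt hp _)⟩
  have hb : ∀ n, β (W n) ∈ W n := fun n => hβ1 _ (hW n).1 (hW n).2
  have hanti : Antitone W := antitone_nat_of_succ_le fun n x hx => hx.1.1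
  refine ⟨fun n => β (W n), strictMono_nat_of_lt_succ fun n => (hb (n + 1)).2, (hb 0).2,
    fun i => hUA ((hW i).1 (hb i)), fun l i j hij => ?_⟩
  exact (hanti (show i + 1 ≤ j from hij) (hb j)).1.2 l

/-- if small sets can be found all of whose translates land in `T`, then `T` is thick with respect
to shifts by functions of the first coordinate -/
theorem thick {p : Ultrafilter ℤ} (hur : ∀ A : Set ℤ, (st p A).Nonempty → Syn (st p A))
    (T : ℤ → ℤ → Prop)
    (hfin : ∀ (F : Finset (ℤ × ℤ)) (U : Set ℤ), (st p U).Nonempty → ∃ U1 ⊆ U, (st p U1).Nonempty ∧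
      ∀ f ∈ F, ∀ b ∈ U1, ∀ m ∈ st p U1, T (b + f.1) (m + f.2)) (D : Finset (ℤ × (ℤ → ℤ))) :
    ∀ (U : Set ℤ), (st p U).Nonempty → ∀ F : Finset ℤ, ∃ U1 ⊆ U, (st p U1).Nonempty ∧
      ∃ G : Finset ℤ, ∀ b ∈ U1, ∀ m : ℤ, ∃ g ∈ G, ∀ d ∈ D, ∀ f ∈ F,
        T (b + d.1) (m + g + d.2 b + f) := by
  classical
  induction D using Finset.induction_on with
  | empty => exact fun U hU F => ⟨U, Subset.rfl, hU, {0}, fun b _ m => ⟨0, by simp, by simp⟩⟩
  | insert d0 D _ ih =>
    intro U hU F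
    obtain ⟨U1, hU1, hU1n, hT1⟩ := hfin (F.image fun f => (d0.1, f)) U hU
    obtain ⟨G1, hG1⟩ := hur U1 hU1n
    obtain ⟨U2, hU2, hU2n, G, hG⟩ := ih U1 hU1n (Finset.image₂ (· + ·) G1 F)
    refine ⟨U2, hU2.trans hU1, hU2n, Finset.image₂ (· + ·) G G1, fun b hb m => ?_⟩
    obtain ⟨g, hg, h1⟩ := hG b hb m
    obtain ⟨g1, hg1, h2⟩ := hG1 (m + g + d0.2 b)
    refine ⟨g + g1, Finset.mem_image₂_of_mem hg hg1, fun d hd f hf => ?_⟩
    rcases Finset.mem_insert.1 hd with rfl | hd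
    · have := hT1 _ (Finset.mem_image_of_mem _ hf) b (hU2 hb) _ h2
      convert this using 1
      ring
    · have := h1 d hd _ (Finset.mem_image₂_of_mem hg1 hf)
      convert this using 1
      ring

theorem main {γ ι : Type*} [Fintype γ] [Finite ι] (P : ι → ℚ[X]) (hP : ∀ l, Good (P l))
    (A : γ → Set ℤ) (hA : ∀ x : ℤ, 0 < x → ∃ i, x ∈ A i)
    (hd : ∀ i j x, x ∈ A i → x ∈ A j → i = j) :
    ∃ (b : ℕ → ℤ) (t : ℤ) (k : γ), StrictMono b ∧ 0 < b 0 ∧ (∀ i, b i + t ∈ A k) ∧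
      ∀ l i j, i < j → b j + ev (P l) (b i) + t ∈ A k := by
  classical
  obtain ⟨p, hp, hur⟩ := exists_ur
  by_contra hc
  -- refining a large set by colour
  have href : ∀ (U : Set ℤ) (t a : ℤ), a ∈ st p U → ∃ i, a ∈ st p (U ∩ {x | x + t ∈ A i}) := by
    intro U t a ha
    have h1 : (⋃ i ∈ (univ : Set γ), {b | a + b ∈ U ∩ {x | x + t ∈ A i}}) ∈ p := by
      refine mem_of_superset (st_gt hp (-t) ha) fun b hb => ?_
      obtain ⟨i, hi⟩ := hA (a + b + t) (by have := hb.2; simp only [mem_ofPred_eq] at this; linarith)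
      simp only [mem_iUnion]
      exact ⟨i, trivial, hb.1, hi⟩
    rw [Ultrafilter.finite_biUnion_mem_iff finite_univ] at h1
    obtain ⟨i, -, hi⟩ := h1
    exact ⟨i, hi⟩
  let T : ℤ → ℤ → Prop := fun n m => ∀ i, ¬ (m ∈ st p (A i) ∧ ∀ l, m + ev (P l) n ∈ st p (A i))
  have hone : ∀ (U : Set ℤ) (s a : ℤ), (st p U).Nonempty → ∃ U1 ⊆ U, (st p U1).Nonempty ∧
      ∀ b ∈ U1, ∀ m ∈ st p U1, T (b + s) (m + a) := by
    intro U s a ⟨x, hx⟩
    have hx' : x + s ∈ st p {y | y - s ∈ U} := by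
      refine mem_of_superset hx fun b hb => ?_
      change x + s + b - s ∈ U
      rw [show x + s + b - s = x + b by ring]
      exact hb
    obtain ⟨i, hi⟩ := href _ (a - s) _ hx'
    have hg := greedy hp (fun l => ev (P l)) {x | x + (a - s) ∈ A i} _ ⟨_, hi⟩ inter_subset_right
    by_contra hno
    have := hg (by
      intro U1 hU1 ⟨y, hy⟩
      by_contra hno'
      push Not at hno'
      refine hno ⟨{x | x + s ∈ U1}, fun x hx => ?_, ⟨y - s, ?_⟩, ?_⟩
      · simpa using (hU1 hx).1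
      · refine mem_of_superset hy fun b hb => ?_
        change y - s + b + s ∈ U1
        rw [show y - s + b + s = y + b by ring]
        exact hb
      · intro b hb m hm j ⟨h1, h2⟩
        have h3 := hno' (b + s) hb
        have h4 : {y | m + y + s ∈ U1} ∈ p := hm
        have h5 : {y | m + a + y ∈ A j} ∈ p := h1
        have h6 : {y | ∀ l, m + a + ev (P l) (b + s) + y ∈ A j} ∈ (p : Filter ℤ) := by
          have : {y | ∀ l, m + a + ev (P l) (b + s) + y ∈ A j} =
              ⋂ l, {y | m + a + ev (P l) (b + s) + y ∈ A j} := by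
            ext y; simp
          rw [this, iInter_mem]
          exact fun l => h2 l
        obtain ⟨y, hy1, hy2⟩ := Ultrafilter.nonempty_of_mem (inter_mem h4 h5)
        have hij : i = j := by
          refine hd i j (m + a + y) ?_ hy2
          have : m + y + s + (a - s) ∈ A i := (hU1 hy1).2
          convert this using 1
          ring
        subst hij
        have : m + s ∈ st p (U1 ∩ {x | ∀ l, x + ev (P l) (b + s) ∈ {x | x + (a - s) ∈ A i}}) := by
          refine mem_of_superset (inter_mem h4 h6) fun y hy => ⟨?_, fun l => ?_⟩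
          · rw [add_right_comm]
            exact hy.1
          · have : m + a + ev (P l) (b + s) + y ∈ A i := hy.2 l
            change m + s + y + ev (P l) (b + s) + (a - s) ∈ A i
            convert this using 1
            ring
        rw [h3] at this
        exact this)
    obtain ⟨b, h1, h2, h3, h4⟩ := this
    exact hc ⟨b, a - s, i, h1, h2, h3, h4⟩
  have hfin : ∀ (F : Finset (ℤ × ℤ)) (U : Set ℤ), (st p U).Nonempty → ∃ U1 ⊆ U,
      (st p U1).Nonempty ∧ ∀ f ∈ F, ∀ b ∈ U1, ∀ m ∈ st p U1, T (b + f.1) (m + f.2) := by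
    intro F
    induction F using Finset.induction_on with
    | empty => exact fun U hU => ⟨U, Subset.rfl, hU, by simp⟩
    | insert f F _ ih =>
      intro U hU
      obtain ⟨U0, hU0, hU0n, h1⟩ := ih U hU
      obtain ⟨U1, h2, h3, h4⟩ := hone U0 f.1 f.2 hU0n
      refine ⟨U1, h2.trans hU0, h3, fun g hg b hb m hm => ?_⟩
      rcases Finset.mem_insert.1 hg with rfl | hg
      · exact h4 b hb m hm
      · exact h1 g hg b (h2 hb) m (st_mono h2 hm)
  obtain ⟨n, m, f, h1, h2, h3⟩ := poly_meets (alg_st p hur) Finset.univ (fun i => st p (A i))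
    (fun i => ⟨_, rfl⟩) (fun m => by
      obtain ⟨i, hi⟩ := href univ 0 m (univ_mem : univ ∈ (p : Filter ℤ))
      exact ⟨i, Finset.mem_univ _, st_mono (fun x hx => by simpa using hx.2) hi⟩)
    ((Set.finite_range P).toFinset) (by
      intro q hq
      obtain ⟨l, rfl⟩ := (Set.Finite.mem_toFinset _).1 hq
      exact hP l) T (by
      intro D
      obtain ⟨U1, -, ⟨x, hx⟩, G, hG⟩ := thick hur T hfin D univ
        ⟨0, (univ_mem : univ ∈ (p : Filter ℤ))⟩ {0}
      obtain ⟨y, hy⟩ := Ultrafilter.nonempty_of_mem hx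
      obtain ⟨g, -, hg⟩ := hG (x + y) hy 0
      refine ⟨x + y, 0 + g, fun d hd => ?_⟩
      simpa using hg d hd 0 (by simp))
  exact h1 f ⟨h2, fun l => h3 _ ((Set.Finite.mem_toFinset _).2 ⟨l, rfl⟩)⟩

end Pool.Agent.Z26.PolyPat
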